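import Mathlib

namespace Pool.Agent.Results.MP_86b878_co.No

/-- `a` is a minimal generator of `S`. -/
def IsGen (S : AddSubmonoid ℕ) (a : ℕ) : Prop :=
  a ∈ S ∧ a ≠ 0 ∧ ¬ ∃ x ∈ S, ∃ y ∈ S, x ≠ 0 ∧ y ≠ 0 ∧ a = x + y

/-- `z` is a factorization of `x`: multiplicities of minimal generators with total `x`. -/
def IsFact (S : AddSubmonoid ℕ) (x : ℕ) (z : ℕ →₀ ℕ) : Prop :=
  (∀ a ∈ z.support, IsGen S a) ∧ ∑ a ∈ z.support, z a * a = x

/-- The set of maximal multiplicities of the factorizations of `x`. -/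
def Linf (S : AddSubmonoid ℕ) (x : ℕ) : Set ℕ := {l | ∃ z, IsFact S x z ∧ l = z.support.sup z}

/-- Differences of consecutive elements of `L`. -/
def Gaps (L : Set ℕ) : Set ℕ :=
  {d | ∃ u ∈ L, ∃ v ∈ L, u < v ∧ (∀ w ∈ L, w ≤ u ∨ v ≤ w) ∧ d = v - u}

/-- The infinity-delta set of `S`. -/
def Dinf (S : AddSubmonoid ℕ) : Set ℕ := ⋃ x ∈ S, Gaps (Linf S x)

variable {S : AddSubmonoid ℕ} {x y a : ℕ} {z w : ℕ →₀ ℕ}

lemma le_sup (z : ℕ →₀ ℕ) (a : ℕ) : z a ≤ z.support.sup z := by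
  by_cases h : a ∈ z.support
  · exact Finset.le_sup h
  · rw [Finsupp.notMem_support_iff.mp h]; exact Nat.zero_le _

lemma IsFact.add (h : IsFact S x z) (h' : IsFact S y w) : IsFact S (x + y) (z + w) := by
  refine ⟨fun a ha => (Finset.mem_union.mp (Finsupp.support_add ha)).elim (h.1 a) (h'.1 a), ?_⟩
  rw [← h.2, ← h'.2]
  exact Finsupp.sum_add_index' (h := fun a n => n * a) (fun _ => zero_mul _) fun _ _ _ => add_mul ..

lemma single (h : IsGen S a) (n : ℕ) : IsFact S (n * a) (Finsupp.single a n) :=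
  ⟨fun _ hb => (Finsupp.mem_support_single _ _ _).mp hb |>.1 ▸ h,
    Finsupp.sum_single_index (h := fun a n => n * a) (zero_mul _)⟩

lemma IsFact.erase (h : IsFact S x z) (a : ℕ) :
    ∃ r, IsFact S r (z.erase a) ∧ z a * a + r = x := by
  refine ⟨_, ⟨fun b hb => h.1 b ?_, rfl⟩, ?_⟩
  · rw [Finsupp.support_erase] at hb
    exact Finset.mem_of_mem_erase hb
  · rw [← h.2]
    exact Finsupp.add_sum_erase' z a (fun a n => n * a) fun _ => zero_mul _

lemma IsFact.mem (h : IsFact S x z) : x ∈ S :=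
  h.2 ▸ S.sum_mem fun a ha => by simpa using S.nsmul_mem (h.1 a ha).1 (z a)

/-- A set containing `1` and no two consecutive integers `≥ 2` is no infinity-delta set. -/
theorem result (D : Set ℕ) (h1 : 1 ∈ D) (h2 : ∀ c, 2 ≤ c → c ∈ D → c + 1 ∉ D)
    (S : AddSubmonoid ℕ) (hS : (S : Set ℕ)ᶜ.Finite) : Dinf S ≠ D := by
  classical
  rintro rfl
  obtain ⟨B, hB⟩ := hS.bddAbove
  have big : ∀ x, B < x → x ∈ S := fun x hx => by
    by_contra e
    exact absurd (hB e) (not_le.mpr hx)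
  have ex1 : ∃ x, 0 < x ∧ x ∈ S := ⟨B + 1, by omega, big _ (by omega)⟩
  obtain ⟨m, ⟨hm, hmS⟩, hmin⟩ : ∃ m, (0 < m ∧ m ∈ S) ∧ ∀ x, 0 < x → x ∈ S → m ≤ x :=
    ⟨Nat.find ex1, Nat.find_spec ex1, fun x h1 h2 => Nat.find_min' ex1 ⟨h1, h2⟩⟩
  have gm : IsGen S m := ⟨hmS, hm.ne', by
    rintro ⟨x, hx, y, hy, h1, h2, h3⟩
    have := hmin x (by omega) hx
    omega⟩
  have gt : ∀ a, IsGen S a → a ≠ m → m + 1 ≤ a := fun a ha h =>
    lt_of_le_of_ne (hmin a (Nat.pos_of_ne_zero ha.2.1) ha.1) h.symm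
  by_cases ex2 : ∃ n, 0 < n ∧ ∃ z, IsFact S (n * m) z ∧ z m = 0
  swap
  · have key : ∀ x z, IsFact S x z → z = Finsupp.single m (x / m) := by
      intro x z hz
      have h3 : z = Finsupp.single m (z m) := by
        refine Finsupp.support_subset_singleton.mp fun a ha => Finset.mem_singleton.mpr ?_
        by_contra e
        exact ex2 ⟨a, Nat.pos_of_ne_zero (hz.1 a ha).2.1, _, mul_comm m a ▸ single (hz.1 a ha) m,
          Finsupp.single_eq_of_ne' e⟩
      have h4 := (single gm (z m)).2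
      rw [← h3, hz.2] at h4
      rw [h4, Nat.mul_div_cancel _ hm]
      exact h3
    simp only [Dinf, Set.mem_iUnion] at h1
    obtain ⟨x, -, u, ⟨z, hz, rfl⟩, v, ⟨w, hw, rfl⟩, h, -⟩ := h1
    rw [key x z hz, key x w hw] at h
    exact lt_irrefl _ h
  obtain ⟨c, ⟨hc, z0, hz0, hz1⟩, hcm⟩ : ∃ c, (0 < c ∧ ∃ z, IsFact S (c * m) z ∧ z m = 0) ∧
      ∀ n z, 0 < n → IsFact S (n * m) z → z m = 0 → c ≤ n :=
    ⟨Nat.find ex2, Nat.find_spec ex2, fun n z h1 h2 h3 => Nat.find_min' ex2 ⟨h1, z, h2, h3⟩⟩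
  obtain ⟨b, hb⟩ : z0.support.Nonempty := by
    rw [Finset.nonempty_iff_ne_empty]
    intro e
    have := hz0.2
    rw [e, Finset.sum_empty] at this
    exact (Nat.mul_pos hc hm).ne this
  have hb1 : 1 ≤ z0 b := Nat.pos_of_ne_zero (Finsupp.mem_support_iff.mp hb)
  have hb2 := gt b (hz0.1 b hb) (by rintro rfl; omega)
  have c3 : 3 ≤ c := by
    obtain ⟨r, h3, h4⟩ := hz0.erase b
    by_contra e
    have h5 : z0 b = 1 := by
      by_contra e2
      have : 2 * b ≤ z0 b * b := Nat.mul_le_mul_right _ (by omega)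
      have : c * m ≤ 2 * m := Nat.mul_le_mul_right _ (by omega)
      omega
    rw [h5] at h4
    obtain rfl : c = 2 := by
      by_contra e2
      obtain rfl : c = 1 := by omega
      omega
    have h6 : r = 0 := by
      by_contra e2
      have := hmin r (by omega) h3.mem
      omega
    exact (hz0.1 b hb).2.2 ⟨m, hmS, m, hmS, hm.ne', hm.ne', by omega⟩
  let Q : ℕ → Set ℕ := fun n => {v | ∃ z, IsFact S (n * m) z ∧ z m < n ∧ v = z.support.sup z}
  have co : ∀ n z a t, IsFact S (n * m) z → a ≠ m → n * m < (t + 1) * (m + 1) → z a ≤ t := by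
    intro n z a t hz ha ht
    by_contra e
    obtain ⟨r, -, h4⟩ := hz.erase a
    have : (t + 1) * (m + 1) ≤ z a * a := Nat.mul_le_mul (by omega)
      (gt a (hz.1 a (Finsupp.mem_support_iff.mpr (by omega))) ha)
    omega
  have Qlt : ∀ n, ∀ v ∈ Q n, v < n := by
    rintro n _ ⟨z, hz, h3, rfl⟩
    refine (Finset.sup_lt_iff (by simp only [bot_eq_zero]; omega)).mpr fun a _ => ?_
    by_cases e : a = m
    · exact e ▸ h3
    · have := co n z a (n - 1) hz e (by rw [Nat.sub_add_cancel (by omega)]; nlinarith)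
      omega
  have Qb : ∀ n, BddAbove (Q n) := fun n => ⟨n, fun v hv => (Qlt n v hv).le⟩
  have Q1 : ∀ n, c ≤ n → ∃ v ∈ Q n, n - c ≤ v ∧ 1 ≤ v := by
    intro n hn
    have h3 := hz0.add (single gm (n - c))
    rw [← add_mul, Nat.add_sub_cancel' hn] at h3
    refine ⟨_, ⟨_, h3, by simp [hz1]; omega, rfl⟩, le_trans (by simp) (le_sup _ m),
      le_trans (by simp; omega) (le_sup _ b)⟩
  have Qm : ∀ n, c ≤ n → sSup (Q n) ∈ Q n := fun n hn =>
    Nat.sSup_mem ⟨_, (Q1 n hn).choose_spec.1⟩ (Qb n)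
  have QD : ∀ n, c ≤ n → n - sSup (Q n) ∈ Dinf S := by
    intro n hn
    obtain ⟨z, hz, -, h3⟩ := Qm n hn
    simp only [Dinf, Set.mem_iUnion]
    refine ⟨n * m, hz.mem, _, ⟨z, hz, h3⟩, n, ⟨_, single gm n, ?_⟩, Qlt n _ (Qm n hn), ?_, rfl⟩
    · rw [Finsupp.support_single _ (by omega)]
      simp
    · rintro _ ⟨w, hw, rfl⟩
      rcases lt_or_ge (w m) n with e | e
      · exact Or.inl (le_csSup (Qb n) ⟨w, hw, e, rfl⟩)
      · exact Or.inr (e.trans (le_sup w m))
  have Qs : ∀ n, c ≤ n → sSup (Q n) ≤ sSup (Q (n + 1)) := by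
    intro n hn
    obtain ⟨z, hz, h3, h4⟩ := Qm n hn
    have h5 := hz.add (single gm 1)
    rw [← add_mul] at h5
    refine le_trans ?_ (le_csSup (Qb _) ⟨_, h5, by simpa using h3, rfl⟩)
    rw [h4]
    exact Finset.sup_le fun a _ => le_trans (by simp) (le_sup _ a)
  have QN : c * (m + 1) - sSup (Q (c * (m + 1))) = c := by
    have h3 : c ≤ c * (m + 1) := by nlinarith
    obtain ⟨v, h4, h5, -⟩ := Q1 _ h3
    have h6 := le_csSup (Qb _) h4
    obtain ⟨z, hz, h7, h8⟩ := Qm _ h3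
    have : sSup (Q (c * (m + 1))) ≤ c * m := by
      rw [h8]
      refine Finset.sup_le fun a _ => ?_
      by_cases e : a = m
      · subst e
        obtain ⟨r, h9, h10⟩ := hz.erase a
        have h11 : r = (c * (a + 1) - z a) * a := by rw [Nat.sub_mul]; omega
        have := hcm _ _ (by omega) (h11 ▸ h9) (by simp)
        have : c * (a + 1) = c * a + c := by ring
        omega
      · exact co _ z a _ hz e (by nlinarith)
    have : c * (m + 1) = c * m + c := by ring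
    omega
  have ivt : ∀ n, c ≤ n → c ≤ n - sSup (Q n) → c - 1 ∈ Dinf S := by
    intro n hn
    induction n, hn using Nat.le_induction with
    | base =>
      obtain ⟨v, h4, -, h5⟩ := Q1 c le_rfl
      have := le_csSup (Qb _) h4
      omega
    | succ n hn ih =>
      intro h3
      have := Qs n hn
      by_cases e : c ≤ n - sSup (Q n)
      · exact ih e
      · rw [show c - 1 = n - sSup (Q n) by omega]
        exact QD n hn
  have h3 : c ≤ c * (m + 1) := by nlinarith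
  refine h2 (c - 1) (by omega) (ivt _ h3 QN.ge) ?_
  rw [Nat.sub_add_cancel hc]
  exact QN ▸ QD _ h3

end Pool.Agent.Results.MP_86b878_co.No
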